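import Pool.Agent.H540.TE.Pg

/-!
# Almost prime differences of consecutive cubes at the differences of the elements of a set of `N ^ (1 - c)` integers

A theorem of the type of Furstenberg and Sárközy, with a power saving, for the almost prime values of
`(k + 1) ^ 3 - k ^ 3 = 3 k ^ 2 + 3 k + 1`. Let `δ > 0`. There is `c > 0` such that for large `N` in every set `A` of
integers in `[1, N]` with at least `N ^ (1 - c)` elements there are at least `N ^ (2 - δ)` pairs of elements `b < a` for
which with `k = a - b` the difference `(k + 1) ^ 3 - k ^ 3` has at most three prime factors, counted with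
multiplicity, all at least `N ^ (6 / 25)`. Moreover the differences can be sieved: for the primes `p ≤ N ^ c` let
`Y p` be any set of at most `h` nonzero residue classes; the differences may be taken outside of all these classes
(`c` depends on `δ` and `h`, but not on the classes). For instance with the class of `-1` the
larger one `k + 1` of the two bases has no prime factor up to `N ^ c`, hence a bounded number of prime factors. The class
of zero cannot be excluded, since all elements of `A` may be multiples of `p`.

For `A` the set of all integers up to `N` this is the theorem of Richert on the almost prime values of polynomials. For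
the differences `p - 1` and `p + 1`, `p` prime, such a power saving is a theorem of B. Green.

Method: the small primes (up to a small power of `N`) are sieved by a combination of additive characters with
majorising properties: with `t_p (m) = (K + 1) 1_{p | m} - x_p (m)`, where `x_p` is the indicator function of the
excluded classes and their negatives, `L = ∑_{d ≤ D} (1 - log d / log D) ∏_{p | d} t_p` and its analogues `L_p`
give `f = L ^ 2 - ∑_p x_p L_p ^ 2 ≤ 0` outside of the sifted set, and the Fourier coefficients of `f`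
which are not small are nonnegative, so that their contribution is bounded from below by the main term, however sparse
`A` is. The larger primes are treated by the linear sieve with the weights of Richert, with the level `N ^ (24 / 25)`:
the mean free parts of their indicator functions, multiplied by `L ^ 2` or `L_p ^ 2`, are dominated
by functions with nonnegative coefficients, whose pair sums are bounded by the large sieve; the loss by the
sparsity of `A` is compensated by the gain from the size of these primes.
-/

set_option autoImplicit false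

namespace Pool.Agent.Results.MP_22d6bb_nt.DifferencesOfSparseSets

open Finset Filter Polynomial

/-- `n` is positive and has at most `r` prime factors, counted with multiplicity, all at least `y`. -/
def AlmostPrime (r : ℕ) (y : ℝ) (n : ℕ) : Prop :=
  0 < n ∧ n.primeFactorsList.length ≤ r ∧ ∀ p : ℕ, p.Prime → p ∣ n → y ≤ p

/-- For each prime `p ≤ y` the set `Y p` has at most `h` elements and does not contain `0`. -/
def Classes (h : ℕ) (y : ℝ) (Y : ℕ → Finset ℕ) : Prop :=
  ∀ p : ℕ, p.Prime → (p : ℝ) ≤ y → (Y p).card ≤ h ∧ 0 ∉ Y p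

/-- `m` is modulo no prime `p ≤ y` congruent to an element of `Y p` (the elements of `Y p` are less than `p`). -/
def Avoids (y : ℝ) (Y : ℕ → Finset ℕ) (m : ℕ) : Prop :=
  ∀ p : ℕ, p.Prime → (p : ℝ) ≤ y → m % p ∉ Y p

open Classical in
/-- The number of pairs of elements `b < a` of `A` for which `k = a - b` avoids the classes of `Y` modulo the primes up
to `y`, and `(k + 1) ^ 3 - k ^ 3` has at most three prime factors, counted with multiplicity, all at least `z`. -/
noncomputable def pairCount (Y : ℕ → Finset ℕ) (y z : ℝ) (A : Finset ℕ) : ℕ :=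
  ((A ×ˢ A).filter (fun w : ℕ × ℕ => w.2 < w.1 ∧ Avoids y Y (w.1 - w.2) ∧
    AlmostPrime 3 z ((w.1 - w.2 + 1) ^ 3 - (w.1 - w.2) ^ 3))).card

theorem deg : (C 3 * X ^ 2 + C 3 * X + 1 : ℤ[X]).natDegree = 2 := by compute_degree!

theorem irr : Irreducible (C 3 * X ^ 2 + C 3 * X + 1 : ℤ[X]) := by
  have hp : (C 3 * X ^ 2 + C 3 * X + 1 : ℤ[X]).IsPrimitive := by
    intro r hr
    rw [C_dvd_iff_dvd_coeff] at hr
    have h := hr 0
    simp [coeff_one] at h
    exact isUnit_of_dvd_one h
  rw [hp.irreducible_iff_irreducible_map_fraction_map (K := ℚ)]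
  have e : (C 3 * X ^ 2 + C 3 * X + 1 : ℤ[X]).map (algebraMap ℤ ℚ) = C 3 * X ^ 2 + C 3 * X + 1 := by
    have h3 : (algebraMap ℤ ℚ) 3 = 3 := by norm_num
    rw [Polynomial.map_add, Polynomial.map_add, Polynomial.map_mul, Polynomial.map_mul, Polynomial.map_pow,
      map_X, map_C, Polynomial.map_one, h3]
  rw [e]
  have hd : (C 3 * X ^ 2 + C 3 * X + 1 : ℚ[X]).natDegree = 2 := by compute_degree!
  have h0 : (C 3 * X ^ 2 + C 3 * X + 1 : ℚ[X]) ≠ 0 := by
    intro h
    rw [h] at hd
    simp at hd
  rw [irreducible_iff_roots_eq_zero_of_degree_le_three (by rw [hd]) (by rw [hd]; norm_num)]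
  rw [Multiset.eq_zero_iff_forall_notMem]
  intro x hx
  rw [mem_roots h0, IsRoot.def] at hx
  simp only [eval_add, eval_mul, eval_pow, eval_X, eval_C, eval_one] at hx
  nlinarith [sq_nonneg (2 * x + 1)]

/-- **Almost prime differences of consecutive cubes at the differences of a sparse set.** Let `h` be a natural number
and `δ > 0`. There is `c > 0` such that for all sufficiently large `N`, for any sets `Y p` of at most `h` nonzero
residue classes modulo the primes `p ≤ N ^ c`, every set `A` of integers in `[1, N]` with at least `N ^ (1 - c)`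
elements has at least `N ^ (2 - δ)` pairs of elements `b < a` for which `k = a - b` lies in none of the classes and
`(k + 1) ^ 3 - k ^ 3` has at most three prime factors, counted with multiplicity, all at least `N ^ (6 / 25)`. -/
theorem result (h : ℕ) (δ : ℝ) (hδ : 0 < δ) :
    ∃ c : ℝ, 0 < c ∧ ∀ᶠ N : ℕ in atTop, ∀ (Y : ℕ → Finset ℕ) (A : Finset ℕ), Classes h ((N : ℝ) ^ c) Y →
      A ⊆ Icc 1 N → (N : ℝ) ^ (1 - c) ≤ (A.card : ℝ) →
      (N : ℝ) ^ (2 - δ) ≤ (pairCount Y ((N : ℝ) ^ c) ((N : ℝ) ^ (6 / 25 : ℝ)) A : ℝ) := by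
  classical
  have hd : 0 < (C 3 * X ^ 2 + C 3 * X + 1 : ℤ[X]).natDegree := by rw [deg]; norm_num
  have h0 : (C 3 * X ^ 2 + C 3 * X + 1 : ℤ[X]).eval 0 ≠ 0 := by simp
  obtain ⟨c, R, hc, hcδ, H⟩ := Pool.Agent.H540.PS.polyG _ irr hd h0 3 h 0 (fun _ => 1) (fun i hi => by omega)
    (by rw [deg]; norm_num) δ hδ
  refine ⟨c, hc, ?_⟩
  filter_upwards [H] with N hN Y A hY hA hAc
  refine (hN Y A hY hA hAc).trans ?_
  unfold pairCount
  refine Nat.cast_le.2 (card_le_card ?_)
  intro w hw
  rw [mem_filter] at hw ⊢
  obtain ⟨hwA, hlt, hav, ⟨n, h1, h2, h3⟩, _⟩ := hw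
  refine ⟨hwA, hlt, hav, ?_⟩
  obtain ⟨m, hm⟩ : ∃ m, m = w.1 - w.2 := ⟨_, rfl⟩
  have hcube : (m + 1) ^ 3 - m ^ 3 = 3 * m ^ 2 + 3 * m + 1 := by
    have : (m + 1) ^ 3 = 3 * m ^ 2 + 3 * m + 1 + m ^ 3 := by ring
    rw [this, Nat.add_sub_cancel]
  have h4 : ((C 3 * X ^ 2 + C 3 * X + 1 : ℤ[X]).eval ((w.1 : ℤ) - w.2)).natAbs =
      3 * m ^ 2 + 3 * m + 1 := by
    simp only [eval_add, eval_mul, eval_pow, eval_X, eval_C, eval_one]
    rw [← Nat.cast_sub hlt.le, ← hm]
    have : (3 * (m : ℤ) ^ 2 + 3 * (m : ℤ) + 1) = ((3 * m ^ 2 + 3 * m + 1 : ℕ) : ℤ) := by push_cast; rfl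
    rw [this, Int.natAbs_natCast]
  have h5 : ((C 3 * X ^ 2 + C 3 * X + 1 : ℤ[X]).eval 0).natAbs = 1 := by simp
  rw [h4, h5, one_mul] at h1
  rw [← hm, hcube, h1]
  refine ⟨?_, h2, h3⟩
  rw [← h1]
  positivity

end Pool.Agent.Results.MP_22d6bb_nt.DifferencesOfSparseSets
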