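import Mathlib
import Pool.Agent.H568.LB.LoE
import Pool.Agent.H568.PH.Sub

/-!
# A lower bound of the true order for the primes `(k+1)³ - k³ + (c - 1) = 3 k² + 3 k + c`, for almost all `c ≤ C`, `C ≥ N^(5/8+ε)`, and for a positive proportion of them, `C ≥ N^(1/2+ε)`

The cuban primes are the primes `3 k² + 3 k + 1`. For every `C` with `N^(5/8+ε) ≤ C ≤ N` and almost all the numbers
`5 ≤ c ≤ C` coprime to `6` the number of the primes `3 k² + 3 k + c`, `1 ≤ k ≤ n`, is for all `n ≤ N` at least `1/10`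
times the number which Hardy and Littlewood predict, up to an error `η` times the number predicted for `N`. So for almost
all `c` there are such primes, in the right order of magnitude, for all `n` up to `c^(8/5 - ε)`. For `C ≥ N^(1/2+ε)` a
positive proportion of the `c ≤ C` have at least `κ N / log N` such primes with `k ≤ N`.
(`MP_22d6bb_nt.TwoSidedThinFamily` has the factors `1/2` and `5/3` for `C ≥ N^(2/3+ε)`; the library has the asymptotic formula
for `C ≥ N^(5/6+ε)` and a lower bound for `C ≥ N^(7/10+ε)`.)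

Proof. `low58_c` (`Pool.Agent.H568.LB`) with `a = b = 3`. The divisors `j` of the values with `N^(7/8) < j < N^(1-ε')` and the
smaller ones are accessible on average over `c` (large sieve over the roots of the congruences, `N792` of the library). New
are: (1) the values with a divisor near `N` are few for `C ≥ N^(3/5)`, by the double large sieve for whole blocks of
frequencies (`LB/P/BLK`, `LB/P/TRB`, `LB/P/X3D`); (2) a sieve weight with up to seven prime factors in which certain pairs of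
primes are dropped, with bilinear corrections for the products of three and five primes; the loss is at most `9/20` of
`N / log N` (all primes: `1/2`), integrals over the simplex of the exponents being bounded by Riemann sums evaluated by
the kernel. The part on `C ≥ N^(1/2+ε)` (files `PH/*`): the values are detected by a triangle function of the square root;
Vaughan's identity and the double large sieve give a lower bound of the right order for the primes among them (the method of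
Balog and Harman for the primes with `{√p} < p^(-1/4+ε)`); the second moment over `c` is bounded by the upper bound sieve. The
same engine is used in `MP_8be758_nt.ThinFamilyFiveEighths`.
-/

set_option autoImplicit false

namespace Pool.Agent.Results.MP_22d6bb_nt.ThinFamilyFiveEighths

open Finset Filter Topology

/-- the number of `1 ≤ k ≤ n` for which `(k + 1)³ - k³ + (c - 1)` is prime -/
def primeCount (c n : ℕ) : ℕ := #((Icc 1 n).filter (fun k : ℕ => ((k + 1) ^ 3 - k ^ 3 + (c - 1)).Prime))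

/-- `∫_0^n dx / log (3 x² + 3 x + c)` -/
noncomputable def logInt (c n : ℕ) : ℝ := ∫ x in (0 : ℝ)..n, 1 / Real.log (3 * x ^ 2 + 3 * x + c)

/-- three times the product of `1 - ((9 - 12 c) / p) / (p - 1)` over the primes `5 ≤ p ≤ z`; the number `3 = 2 (3/2)` is the
contribution of the primes `2` and `3`, which do not divide the values -/
noncomputable def partialC (c z : ℕ) : ℝ :=
  3 * ∏ p ∈ (Icc 5 z).filter Nat.Prime, (1 - (jacobiSym (9 - 12 * (c : ℤ)) p : ℝ) / ((p : ℝ) - 1))

/-- the first part -/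
theorem almost_all (ε η : ℝ) (hε : 0 < ε) (hη : 0 < η) :
    ∃ N0 : ℕ, ∀ N : ℕ, N0 ≤ N → ∀ C : ℕ, (N : ℝ) ^ (5 / 8 + ε) ≤ C → C ≤ N →
    ∃ Ex ⊆ (Icc 5 C).filter (fun c => Nat.Coprime c 6), (#Ex : ℝ) ≤ η * C ∧
      ∀ c ∈ (Icc 5 C).filter (fun c => Nat.Coprime c 6), c ∉ Ex →
      ∃ S : ℝ, 0 < S ∧ Tendsto (partialC c) atTop (𝓝 S) ∧
        ∀ n : ℕ, n ≤ N → 1 / 10 * (S * logInt c n) - η * (S * logInt c N) ≤ (primeCount c n : ℝ) := by
  obtain ⟨N0, h⟩ := Pool.Agent.H568.LB.cuban_lo ε η hε hη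
  refine ⟨N0, fun N hN C hC1 hC2 => ?_⟩
  obtain ⟨Ex, k1, k2, k3⟩ := h N hN C hC1 hC2
  refine ⟨Ex, k1, k2, fun c hc hcE => ?_⟩
  obtain ⟨S, m1, m2, m3⟩ := k3 c hc hcE
  have hc5 : 5 ≤ c := (mem_Icc.1 (mem_filter.1 hc).1).1
  have e : partialC c = fun z : ℕ => 3 * Pool.Agent.N792.partialC 3 3 (c : ℤ) z := by
    funext z
    unfold partialC Pool.Agent.N792.partialC
    have e1 : (Icc 3 z).filter (fun p : ℕ => p.Prime ∧ ¬ (p : ℤ) ∣ 3) = (Icc 5 z).filter Nat.Prime := by
      ext p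
      simp only [mem_filter, mem_Icc]
      constructor
      · rintro ⟨⟨h1, h2⟩, h3, h4⟩
        refine ⟨⟨?_, h2⟩, h3⟩
        by_contra h5
        have h6 : p = 3 ∨ p = 4 := by omega
        rcases h6 with h6 | h6
        · exact h4 (by rw [h6]; norm_num)
        · rw [h6] at h3
          exact absurd h3 (by norm_num)
      · rintro ⟨⟨h1, h2⟩, h3⟩
        refine ⟨⟨by omega, h2⟩, h3, fun h4 => ?_⟩
        have h5 : p ∣ 3 := by exact_mod_cast h4
        have := Nat.le_of_dvd (by norm_num) h5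
        omega
    have e2 : (3 : ℤ) ^ 2 - 4 * 3 * (c : ℤ) = 9 - 12 * (c : ℤ) := by ring
    rw [e1]
    refine congrArg _ (prod_congr rfl fun p _ => ?_)
    rw [e2]
  have e3 : ∀ n : ℕ, primeCount c n = #((Icc 1 n).filter (fun x : ℕ => (3 * x ^ 2 + 3 * x + c).Prime)) := by
    intro n
    unfold primeCount
    refine congrArg _ (filter_congr fun k _ => ?_)
    have : (k + 1) ^ 3 - k ^ 3 + (c - 1) = 3 * k ^ 2 + 3 * k + c := by
      have h1 : (k + 1) ^ 3 = k ^ 3 + (3 * k ^ 2 + 3 * k + 1) := by ring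
      rw [h1, Nat.add_sub_cancel_left]
      omega
    rw [this]
  refine ⟨3 * S, by positivity, ?_, fun n hn => ?_⟩
  · rw [e]
    exact m2.const_mul 3
  · rw [e3]
    exact m3 n hn

/-- the second part -/
theorem proportion (ε : ℝ) (hε : 0 < ε) :
    ∃ κ : ℝ, 0 < κ ∧ ∃ N1 : ℕ, ∀ N : ℕ, N1 ≤ N → ∀ C : ℕ, (N : ℝ) ^ (1 / 2 + ε) ≤ C → C ≤ N →
      κ * C ≤ (#(((Icc 5 C).filter (fun c => Nat.Coprime c 6)).filter
        (fun c : ℕ => κ * (N / Real.log N) ≤ (primeCount c N : ℝ))) : ℝ) := by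
  obtain ⟨κ, hκ, x0, h⟩ := Pool.Agent.H568.PH.ph_sub 3 3 (by norm_num) (fun c => Nat.Coprime c 6) (by
    intro c hc hcQ n hn hp
    have hval : 8 ≤ 3 * n ^ 2 + 3 * n + c := by
      have h4 : 1 ≤ n ^ 2 := Nat.one_le_pow _ _ hn
      omega
    apply hcQ
    rw [show (6 : ℕ) = 2 * 3 by norm_num, Nat.coprime_mul_iff_right]
    constructor
    · rw [Nat.coprime_comm, Nat.Prime.coprime_iff_not_dvd Nat.prime_two]
      intro h2
      have h1 : 2 ∣ 3 * n ^ 2 + 3 * n + c := by
        have e : 3 * n ^ 2 + 3 * n + c = 3 * (n * (n + 1)) + c := by ring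
        rw [e]
        exact dvd_add (Dvd.dvd.mul_left (Nat.even_mul_succ_self n).two_dvd 3) h2
      have h3 := (Nat.prime_dvd_prime_iff_eq Nat.prime_two hp).1 h1
      omega
    · rw [Nat.coprime_comm, Nat.Prime.coprime_iff_not_dvd Nat.prime_three]
      intro h2
      have h1 : 3 ∣ 3 * n ^ 2 + 3 * n + c := by
        have e : 3 * n ^ 2 + 3 * n + c = 3 * (n ^ 2 + n) + c := by ring
        rw [e]
        exact dvd_add (Dvd.intro _ rfl) h2
      have h3 := (Nat.prime_dvd_prime_iff_eq Nat.prime_three hp).1 h1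
      omega) ε hε
  refine ⟨κ, hκ, x0, fun N hN C hC1 hC2 => ?_⟩
  obtain ⟨G, hG1, hG2⟩ := h N hN C hC1 hC2
  refine hG1.trans (Nat.cast_le.2 (card_le_card fun c hc => ?_))
  obtain ⟨g1, g2, g3, g4⟩ := hG2 c hc
  rw [mem_filter, mem_filter, mem_Icc]
  have hc5 : 5 ≤ c := by
    by_contra hcon
    have h6 : c = 2 ∨ c = 3 ∨ c = 4 := by omega
    rcases h6 with h6 | h6 | h6 <;> rw [h6] at g3 <;> exact absurd g3 (by decide)
  refine ⟨⟨⟨hc5, g2⟩, g3⟩, g4.trans (Nat.cast_le.2 ?_)⟩
  unfold primeCount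
  apply card_le_card
  intro n hn
  rw [mem_filter] at hn ⊢
  refine ⟨hn.1, ?_⟩
  have e : (n + 1) ^ 3 - n ^ 3 + (c - 1) = 3 * n ^ 2 + 3 * n + c := by
    have h1 : (n + 1) ^ 3 = n ^ 3 + (3 * n ^ 2 + 3 * n + 1) := by ring
    rw [h1, Nat.add_sub_cancel_left]
    omega
  rw [e]
  exact hn.2

/-- **Theorem.** Let `ε, η > 0`. (1) For all large `N` and all `C` with `N^(5/8+ε) ≤ C ≤ N`, all but at most `η C` of the
numbers `5 ≤ c ≤ C` coprime to `6` have the following property: the constant of Hardy and Littlewood converges to a number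
`S > 0`, and for all `n ≤ N` the number of the `1 ≤ k ≤ n` with `(k+1)³ - k³ + (c-1)` prime is at least
`(1/10) S logInt(n) - η S logInt(N)`. (2) There is a `κ > 0` such that for all large `N` and all `C` with
`N^(1/2+ε) ≤ C ≤ N` for at least `κ C` of the numbers `5 ≤ c ≤ C` coprime to `6` the number of the `1 ≤ k ≤ N` with
`(k+1)³ - k³ + (c-1)` prime is at least `κ N / log N`. -/
theorem result (ε η : ℝ) (hε : 0 < ε) (hη : 0 < η) :
    (∃ N0 : ℕ, ∀ N : ℕ, N0 ≤ N → ∀ C : ℕ, (N : ℝ) ^ (5 / 8 + ε) ≤ C → C ≤ N →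
    ∃ Ex ⊆ (Icc 5 C).filter (fun c => Nat.Coprime c 6), (#Ex : ℝ) ≤ η * C ∧
      ∀ c ∈ (Icc 5 C).filter (fun c => Nat.Coprime c 6), c ∉ Ex →
      ∃ S : ℝ, 0 < S ∧ Tendsto (partialC c) atTop (𝓝 S) ∧
        ∀ n : ℕ, n ≤ N → 1 / 10 * (S * logInt c n) - η * (S * logInt c N) ≤ (primeCount c n : ℝ)) ∧
    ∃ κ : ℝ, 0 < κ ∧ ∃ N1 : ℕ, ∀ N : ℕ, N1 ≤ N → ∀ C : ℕ, (N : ℝ) ^ (1 / 2 + ε) ≤ C → C ≤ N →
      κ * C ≤ (#(((Icc 5 C).filter (fun c => Nat.Coprime c 6)).filter
        (fun c : ℕ => κ * (N / Real.log N) ≤ (primeCount c N : ℝ))) : ℝ) :=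
  ⟨almost_all ε η hε hη, proportion ε hε⟩

end Pool.Agent.Results.MP_22d6bb_nt.ThinFamilyFiveEighths
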