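import Mathlib
import Pool.Agent.H568.Cuban

/-!
# Two bounds of the true order for the primes `(k+1)³ - k³ + (c - 1) = 3 k² + 3 k + c`, for almost all `c ≤ C`, `C ≥ N^(2/3+ε)`

The cuban primes are the primes `3 k² + 3 k + 1`. For every `C` with `N^(2/3+ε) ≤ C ≤ N` and almost all the numbers
`5 ≤ c ≤ C` coprime to `6` the number of the primes `3 k² + 3 k + c`, `1 ≤ k ≤ n`, is for all `n ≤ N` between `1/2` and `5/3`
times the number which Hardy and Littlewood predict, up to an error `η` times the number predicted for `N`. So for almost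
all `c` there are such primes, in the right order of magnitude, for all `n` up to `c^(3/2 - ε)`; the upper bound is
smaller than the factor `2` of the parity barrier. (The library has the asymptotic formula for `C ≥ N^(5/6+ε)`
and a lower bound for `C ≥ N^(7/10+ε)`.)

Proof. `two_gen` (`Pool.Agent.H568`) with `a = b = 3`; the engine (an average over the constant term of the bilinear
sums over divisors up to `N^(5/6)` and between `N^(5/6)` and `N^(1-ε)`, few values with a divisor near `N`, a lower and an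
upper bound sieve with bilinear corrections) is the one of `MP_391708_nt.TwoSidedThinFamily` (there for `n² + a`).
-/

set_option autoImplicit false

namespace Pool.Agent.Results.MP_22d6bb_nt.TwoSidedThinFamily

open Finset Filter Topology

/-- the number of `1 ≤ k ≤ n` for which `(k + 1)³ - k³ + (c - 1)` is prime -/
def primeCount (c n : ℕ) : ℕ := #((Icc 1 n).filter (fun k : ℕ => ((k + 1) ^ 3 - k ^ 3 + (c - 1)).Prime))

/-- `∫_0^n dx / log (3 x² + 3 x + c)` -/
noncomputable def logInt (c n : ℕ) : ℝ := ∫ x in (0 : ℝ)..n, 1 / Real.log (3 * x ^ 2 + 3 * x + c)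

/-- three times the product of `1 - ((9 - 12 c) / p) / (p - 1)` over the primes `5 ≤ p ≤ z`; the number `3 = 2 (3/2)` is the
contribution of the primes `2` and `3`, which do not divide the values -/
noncomputable def partialC (c z : ℕ) : ℝ :=
  3 * ∏ p ∈ (Icc 5 z).filter Nat.Prime, (1 - (jacobiSym (9 - 12 * (c : ℤ)) p : ℝ) / ((p : ℝ) - 1))

/-- **Theorem.** For all `ε, η > 0`, all large `N` and all `C` with `N^(2/3+ε) ≤ C ≤ N`, all but at most `η C` of the
numbers `5 ≤ c ≤ C` coprime to `6` have the following property: the constant of Hardy and Littlewood converges to a number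
`S > 0`, and for all `n ≤ N` the number of the `1 ≤ k ≤ n` with `(k+1)³ - k³ + (c-1)` prime is at least
`(1/2) S logInt(n) - η S logInt(N)` and at most `(5/3) S logInt(n) + η S logInt(N)`. -/
theorem result (ε η : ℝ) (hε : 0 < ε) (hη : 0 < η) :
    ∃ N0 : ℕ, ∀ N : ℕ, N0 ≤ N → ∀ C : ℕ, (N : ℝ) ^ (2 / 3 + ε) ≤ C → C ≤ N →
    ∃ Ex ⊆ (Icc 5 C).filter (fun c => Nat.Coprime c 6), (#Ex : ℝ) ≤ η * C ∧
      ∀ c ∈ (Icc 5 C).filter (fun c => Nat.Coprime c 6), c ∉ Ex →
      ∃ S : ℝ, 0 < S ∧ Tendsto (partialC c) atTop (𝓝 S) ∧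
        ∀ n : ℕ, n ≤ N →
          1 / 2 * (S * logInt c n) - η * (S * logInt c N) ≤ (primeCount c n : ℝ) ∧
          (primeCount c n : ℝ) ≤ 5 / 3 * (S * logInt c n) + η * (S * logInt c N) := by
  obtain ⟨N0, h⟩ := Pool.Agent.H568.cuban_two ε η hε hη
  refine ⟨N0, fun N hN C hC1 hC2 => ?_⟩
  obtain ⟨Ex, k1, k2, k3⟩ := h N hN C hC1 hC2
  refine ⟨Ex, k1, k2, fun c hc hcE => ?_⟩
  obtain ⟨S, m1, m2, m3⟩ := k3 c hc hcE
  have hc5 : 5 ≤ c := (mem_Icc.1 (mem_filter.1 hc).1).1
  have e : partialC c = fun z : ℕ => 3 * Pool.Agent.N792.partialC 3 3 (c : ℤ) z := by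
    funext z
    unfold partialC Pool.Agent.N792.partialC
    have e1 : (Icc 3 z).filter (fun p : ℕ => p.Prime ∧ ¬ (p : ℤ) ∣ 3) = (Icc 5 z).filter Nat.Prime := by
      ext p
      simp only [mem_filter, mem_Icc]
      constructor
      · rintro ⟨⟨h1, h2⟩, h3, h4⟩
        refine ⟨⟨?_, h2⟩, h3⟩
        by_contra h5
        have h6 : p = 3 ∨ p = 4 := by omega
        rcases h6 with h6 | h6
        · exact h4 (by rw [h6]; norm_num)
        · rw [h6] at h3
          exact absurd h3 (by norm_num)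
      · rintro ⟨⟨h1, h2⟩, h3⟩
        refine ⟨⟨by omega, h2⟩, h3, fun h4 => ?_⟩
        have h5 : p ∣ 3 := by exact_mod_cast h4
        have := Nat.le_of_dvd (by norm_num) h5
        omega
    have e2 : (3 : ℤ) ^ 2 - 4 * 3 * (c : ℤ) = 9 - 12 * (c : ℤ) := by ring
    rw [e1]
    refine congrArg _ (prod_congr rfl fun p _ => ?_)
    rw [e2]
  have e3 : ∀ n : ℕ, primeCount c n = #((Icc 1 n).filter (fun x : ℕ => (3 * x ^ 2 + 3 * x + c).Prime)) := by
    intro n
    unfold primeCount
    refine congrArg _ (filter_congr fun k _ => ?_)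
    have : (k + 1) ^ 3 - k ^ 3 + (c - 1) = 3 * k ^ 2 + 3 * k + c := by
      have h1 : (k + 1) ^ 3 = k ^ 3 + (3 * k ^ 2 + 3 * k + 1) := by ring
      rw [h1, Nat.add_sub_cancel_left]
      omega
    rw [this]
  refine ⟨3 * S, by positivity, ?_, fun n hn => ?_⟩
  · rw [e]
    exact m2.const_mul 3
  · rw [e3]
    exact m3 n hn

end Pool.Agent.Results.MP_22d6bb_nt.TwoSidedThinFamily
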